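import Pool.Agent.X156.EH.Digits

/-!
# Base-`r` simplices need not be Ehrhart positive

The lattice points of `t B_{(r,d)}` are counted by `∑_c C(t - ⌈s(c) / (r - 1)⌉ + d, d)`, where `c`
runs over the sequences of `d` digits in base `r` and `s(c)` is the digit sum. For `r = 9`, `d = 7`
this gives `h* = (1, 6434, 214698, 1250670, 2072694, 1079940, 155100, 3432)` and

`L(t) = 1 - 191/140 t + 8134/45 t^2 + 247481/240 t^3 + 16345/18 t^4 + 354983/120 t^5`
`+ 37367/90 t^6 + 531441/560 t^7`.
-/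

set_option autoImplicit false

open Finset Polynomial

namespace Pool.Agent.Results.MP_ffae75_co.NotEhrhartPositive

open Pool.Agent.X156.EH

/-- `p` is the Ehrhart polynomial of the base-`r` `d`-simplex: `p(t) = L(t)` for all integers
`t ≥ 0`. -/
def IsEhrhart (r d : ℕ) (p : ℚ[X]) : Prop := ∀ t : ℕ, p.eval (t : ℚ) = (L r d t : ℚ)

/-- the Ehrhart polynomial for `r = 9`, `d = 7` -/
noncomputable def pol : ℚ[X] :=
  C 1 + C (-191 / 140) * X + C (8134 / 45) * X ^ 2 + C (247481 / 240) * X ^ 3 +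
    C (16345 / 18) * X ^ 4 + C (354983 / 120) * X ^ 5 + C (37367 / 90) * X ^ 6 +
    C (531441 / 560) * X ^ 7

theorem cast_choose (t j : ℕ) (hj : j ≤ 7) :
    (((if j ≤ t then (t - j + 7).choose 7 else 0 : ℕ)) : ℚ) =
      ((t : ℚ) - j + 1) * (t - j + 2) * (t - j + 3) * (t - j + 4) * (t - j + 5) * (t - j + 6) *
        (t - j + 7) / 5040 := by
  split_ifs with h
  · obtain ⟨u, rfl⟩ := Nat.exists_eq_add_of_le h
    rw [Nat.add_sub_cancel_left]
    have h1 := Nat.ascFactorial_eq_factorial_mul_choose u 7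
    have h2 : ((u + 1).ascFactorial 7 : ℚ) = ((7).factorial : ℚ) * ((u + 7).choose 7 : ℚ) := by
      exact_mod_cast h1
    have h3 : ((7).factorial : ℚ) = 5040 := by norm_num [Nat.factorial]
    have h4 : ((u + 1).ascFactorial 7 : ℚ) = ((u : ℚ) + 1) * (u + 2) * (u + 3) * (u + 4) *
        (u + 5) * (u + 6) * (u + 7) := by
      simp only [Nat.ascFactorial]
      push_cast
      ring
    rw [h3, h4] at h2
    push_cast
    have h5 : ((j : ℚ) + u - j) = u := by ring
    rw [h5, h2]
    ring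
  · have h1 : t < j := not_le.1 h
    have h2 : t = 0 ∨ t = 1 ∨ t = 2 ∨ t = 3 ∨ t = 4 ∨ t = 5 ∨ t = 6 := by omega
    have h3 : j = 1 ∨ j = 2 ∨ j = 3 ∨ j = 4 ∨ j = 5 ∨ j = 6 ∨ j = 7 := by omega
    rcases h2 with rfl | rfl | rfl | rfl | rfl | rfl | rfl <;>
      rcases h3 with rfl | rfl | rfl | rfl | rfl | rfl | rfl <;>
      first
        | omega
        | norm_num

theorem wts_eq : wts 9 7 = [1, 7, 28, 84, 210, 462, 924, 1716, 3003, 4998, 7959, 12180, 17976,
    25662, 35526, 47796, 62601, 79926, 99582, 121191, 144186, 167826, 191226, 213402, 233331,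
    250026, 262626, 270466, 273127, 270466, 262626, 250026, 233331, 213402, 191226, 167826,
    144186, 121191, 99582, 79926, 62601, 47796, 35526, 25662, 17976, 12180, 7959, 4998, 3003,
    1716, 924, 462, 210, 84, 28, 7, 1] := by
  decide

theorem dot_eq (G : ℕ → ℕ) : dot (wts 9 7) (fun s => G ((s + (9 - 2)) / (9 - 1))) =
    1 * G 0 + 6434 * G 1 + 214698 * G 2 + 1250670 * G 3 + 2072694 * G 4 + 1079940 * G 5 +
      155100 * G 6 + 3432 * G 7 := by
  rw [wts_eq]
  simp only [dot, Nat.reduceAdd, Nat.reduceSub, Nat.reduceDiv]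
  ring

theorem isEhrhart : IsEhrhart 9 7 pol := by
  intro t
  rw [L_eq_dot (by norm_num)]
  rw [dot_eq (fun j => if j ≤ t then (t - j + 7).choose 7 else 0)]
  simp only [Nat.cast_add, Nat.cast_mul]
  rw [cast_choose t 0 (by norm_num), cast_choose t 1 (by norm_num), cast_choose t 2 (by norm_num),
    cast_choose t 3 (by norm_num), cast_choose t 4 (by norm_num), cast_choose t 5 (by norm_num),
    cast_choose t 6 (by norm_num), cast_choose t 7 (by norm_num)]
  unfold pol
  simp only [eval_add, eval_mul, eval_C, eval_pow, eval_X]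
  push_cast
  ring

/-- **Negative answer to Q1.** Some base-`r` `d`-simplex is not Ehrhart positive: its Ehrhart
polynomial has a negative coefficient. (Here `r = 9`, `d = 7` and the linear coefficient is
`-191 / 140`.) -/
theorem result : ∃ r d : ℕ, 2 ≤ r ∧ 1 ≤ d ∧ ∃ p : ℚ[X], IsEhrhart r d p ∧
    ∃ i ≤ d, p.coeff i < 0 := by
  refine ⟨9, 7, by norm_num, by norm_num, pol, isEhrhart, 1, by norm_num, ?_⟩
  unfold pol
  simp only [coeff_add, coeff_C_mul, coeff_X_pow, coeff_X, coeff_C]
  norm_num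

end Pool.Agent.Results.MP_ffae75_co.NotEhrhartPositive
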